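import Pool.Agent.H44.PCA2

open MeasureTheory ProbabilityTheory

namespace Pool.Agent.Results.MP_37af32_pr.SlowPCA

/-- There is a one-dimensional PCA (finite alphabet `A`, finite neighbourhood `N`, local rule `f`,
global transition kernel `κ`) with a unique invariant probability measure `π`, uniformly ergodic on
cylinders, for which some cylinder and some initial law do not converge exponentially fast. -/
theorem result : ∃ (A : Type) (_ : Fintype A) (_ : MeasurableSpace A) (_ : DiscreteMeasurableSpace A)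
    (N : Finset (Fin 1 → ℤ)) (f : (↥N → A) → ProbabilityMeasure A)
    (κ : Kernel ((Fin 1 → ℤ) → A) ((Fin 1 → ℤ) → A)) (π : Measure ((Fin 1 → ℤ) → A)),
    2 ≤ Fintype.card A ∧
    (∀ x : (Fin 1 → ℤ) → A, κ x = Measure.infinitePi
      (fun k : Fin 1 → ℤ => ((f (fun v : ↥N => x (k + (v : Fin 1 → ℤ)))) : Measure A))) ∧
    IsProbabilityMeasure π ∧ π.bind κ = π ∧
    (∀ μ : Measure ((Fin 1 → ℤ) → A), IsProbabilityMeasure μ → μ.bind κ = μ → μ = π) ∧
    (∀ (S : Finset (Fin 1 → ℤ)) (a : (Fin 1 → ℤ) → A) (ε : ℝ), 0 < ε →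
      ∃ n0 : ℕ, ∀ n : ℕ, n0 ≤ n → ∀ μ : Measure ((Fin 1 → ℤ) → A), IsProbabilityMeasure μ →
        |(((fun ν : Measure ((Fin 1 → ℤ) → A) => ν.bind κ)^[n] μ) {x | ∀ k ∈ S, x k = a k}).toReal
          - (π {x | ∀ k ∈ S, x k = a k}).toReal| < ε) ∧
    ∃ (S : Finset (Fin 1 → ℤ)) (a : (Fin 1 → ℤ) → A) (μ : Measure ((Fin 1 → ℤ) → A)),
      IsProbabilityMeasure μ ∧ ∀ K γ : ℝ, 0 ≤ γ → γ < 1 → ∃ t : ℕ, K * γ ^ t <
        |(((fun ν : Measure ((Fin 1 → ℤ) → A) => ν.bind κ)^[t] μ) {x | ∀ k ∈ S, x k = a k}).toReal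
          - (π {x | ∀ k ∈ S, x k = a k}).toReal| := by
  open Pool.Agent.H44.PCA1 in
  exact ⟨Al, inferInstance, inferInstance, inferInstance, N, rule false, ker false, ker false x0,
    by simp, ker_eq false, inferInstance, invariant false, fun μ _ h => unique_false μ h,
    fun S a _ hε => uniform_false S a hε, {s 0}, x1, Measure.dirac x1, inferInstance, not_exp⟩

end Pool.Agent.Results.MP_37af32_pr.SlowPCA
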